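import Pool.Agent.H783R2.Arc.Sup

/-! # A champagne type domain: the harmonic function -/

set_option autoImplicit false
open Set Filter Topology Metric MeasureTheory Real

namespace Pool.Agent.H783R2.Champ

/-- radii of the bubbles (in the power coordinate) -/
noncomputable def eps (k : ℕ) : ℝ := 1/2 * (4/5) ^ k

lemma eps_pos (k : ℕ) : 0 < eps k := by unfold eps; positivity

lemma eps_le (k : ℕ) : eps k ≤ 1/2 := by
  unfold eps
  have : (4/5 : ℝ) ^ k ≤ 1 := pow_le_one₀ (by norm_num) (by norm_num)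
  linarith

/-- the factors -/
noncomputable def fac (k : ℕ) (z : ℂ) : ℂ := 1 - 3 * z ^ (20 ^ k)

lemma fac_continuous (k : ℕ) : Continuous (fac k) := by unfold fac; fun_prop

lemma fac_ge (k : ℕ) (z : ℂ) : 1 - 3 * ‖z‖ ^ (20 ^ k) ≤ ‖fac k z‖ := by
  have h := norm_sub_norm_le (1:ℂ) (3 * z ^ (20 ^ k))
  rw [norm_one, norm_mul, norm_pow, Complex.norm_ofNat] at h
  exact h

lemma fac_ge' (k : ℕ) (z : ℂ) : 3 * ‖z‖ ^ (20 ^ k) - 1 ≤ ‖fac k z‖ := by
  have h := norm_sub_norm_le (3 * z ^ (20 ^ k)) (1:ℂ)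
  rw [norm_one, norm_mul, norm_pow, Complex.norm_ofNat, norm_sub_rev] at h
  exact h

lemma fac_le (k : ℕ) (z : ℂ) : ‖fac k z‖ ≤ 1 + 3 * ‖z‖ ^ (20 ^ k) := by
  have h := norm_sub_le (1:ℂ) (3 * z ^ (20 ^ k))
  rw [norm_one, norm_mul, norm_pow, Complex.norm_ofNat] at h
  exact h

/-- the terms of the series -/
noncomputable def term (k : ℕ) (z : ℂ) : ℝ := -Real.log ‖fac k z‖

/-- the harmonic function -/
noncomputable def us (z : ℂ) : ℝ := ∑' k, term k z

lemma abs_log_le {x y : ℝ} (hx0 : 0 ≤ x) (hx : x ≤ 1/2) (h1 : 1 - x ≤ y) (h2 : y ≤ 1 + x) :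
    |Real.log y| ≤ 2 * x := by
  have hy : 0 < y := by linarith
  rw [abs_le]
  constructor
  · have h3 := Real.one_sub_inv_le_log_of_pos hy
    have h4 : y⁻¹ ≤ 1 + 2 * x := by
      rw [inv_le_comm₀ hy (by linarith)]
      refine le_trans ?_ h1
      rw [inv_le_iff_one_le_mul₀ (by linarith)]
      nlinarith
    linarith
  · have h3 := Real.log_le_sub_one_of_pos hy
    linarith

lemma abs_term_le {k : ℕ} {z : ℂ} {ρ : ℝ} (hz : ‖z‖ ≤ ρ) (h : 3 * ρ ^ (20 ^ k) ≤ 1/2) :
    |term k z| ≤ 6 * ρ ^ (20 ^ k) := by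
  have h0 : 0 ≤ ρ := (norm_nonneg z).trans hz
  have h1 : ‖z‖ ^ (20 ^ k) ≤ ρ ^ (20 ^ k) := pow_le_pow_left₀ (norm_nonneg z) hz _
  unfold term
  rw [abs_neg]
  have h2 := fac_ge k z
  have h3 := fac_le k z
  have := abs_log_le (x := 3 * ρ ^ (20 ^ k)) (by positivity) h (by linarith) (by linarith : ‖fac k z‖ ≤ _)
  linarith

lemma le_20pow (k : ℕ) : k ≤ 20 ^ k := (Nat.lt_pow_self (by norm_num)).le

lemma summable_rho {ρ : ℝ} (h0 : 0 ≤ ρ) (h1 : ρ < 1) : Summable fun k : ℕ => 6 * ρ ^ (20 ^ k) := by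
  refine Summable.mul_left _ ?_
  refine Summable.of_nonneg_of_le (fun k => by positivity) (fun k => ?_)
    (summable_geometric_of_lt_one h0 h1)
  exact pow_le_pow_of_le_one h0 h1.le (le_20pow k)

lemma eventually_small {ρ : ℝ} (h0 : 0 ≤ ρ) (h1 : ρ < 1) :
    ∃ n : ℕ, ∀ k ≥ n, 3 * ρ ^ (20 ^ k) < 1/2 := by
  have h := (summable_rho h0 h1).tendsto_atTop_zero
  obtain ⟨n, hn⟩ := (h.eventually (gt_mem_nhds (show (0:ℝ) < 1 by norm_num))).exists_forall_of_atTop
  exact ⟨n, fun k hk => by have := hn k hk; linarith⟩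

/-- the majorant of the series on `‖z‖ ≤ ρ` -/
noncomputable def bd (ρ : ℝ) (k : ℕ) : ℝ :=
  if 3 * ρ ^ (20 ^ k) ≤ 1/2 then 6 * ρ ^ (20 ^ k) else Real.log 4 - Real.log (eps k)

lemma summable_bd {ρ : ℝ} (h0 : 0 ≤ ρ) (h1 : ρ < 1) : Summable (bd ρ) := by
  obtain ⟨n, hn⟩ := eventually_small h0 h1
  have h2 := summable_rho h0 h1
  rw [← summable_nat_add_iff n] at h2 ⊢
  refine h2.congr fun k => ?_
  rw [bd, if_pos (hn (k + n) (by omega)).le]

lemma abs_term_le_bd {k : ℕ} {z : ℂ} {ρ : ℝ} (hz : ‖z‖ ≤ ρ) (hρ : ρ < 1)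
    (he : eps k ≤ ‖fac k z‖) : |term k z| ≤ bd ρ k := by
  unfold bd
  split_ifs with h
  · exact abs_term_le hz h
  · have h0 : 0 ≤ ρ := (norm_nonneg z).trans hz
    have h1 : ‖z‖ ^ (20 ^ k) ≤ 1 := pow_le_one₀ (norm_nonneg z) (by linarith)
    have h3 := fac_le k z
    have h4 : Real.log ‖fac k z‖ ≤ Real.log 4 :=
      Real.log_le_log (lt_of_lt_of_le (eps_pos k) he) (by linarith)
    have h5 : Real.log (eps k) ≤ Real.log ‖fac k z‖ := Real.log_le_log (eps_pos k) he
    have h6 : Real.log (eps k) ≤ 0 := Real.log_nonpos (eps_pos k).le (by linarith [eps_le k])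
    have h7 : 0 ≤ Real.log 4 := Real.log_nonneg (by norm_num)
    unfold term
    rw [abs_neg, abs_le]
    constructor <;> linarith

lemma summable_term {z : ℂ} (hz : ‖z‖ < 1) : Summable fun k => term k z := by
  obtain ⟨n, hn⟩ := eventually_small (norm_nonneg z) hz
  rw [← summable_nat_add_iff n]
  refine Summable.of_norm_bounded ((summable_nat_add_iff n).2 (summable_rho (norm_nonneg z) hz))
    fun k => ?_
  rw [Real.norm_eq_abs]
  exact abs_term_le le_rfl (hn (k + n) (by omega)).le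

/-- the closed set where the factors are not small -/
def G : Set ℂ := {z | ∀ k, eps k ≤ ‖fac k z‖}

lemma isClosed_G : IsClosed G := by
  have : G = ⋂ k, {z | eps k ≤ ‖fac k z‖} := by ext z; simp [G]
  rw [this]
  exact isClosed_iInter fun k => isClosed_le continuous_const (fac_continuous k).norm

lemma us_continuousOn {ρ : ℝ} (h0 : 0 ≤ ρ) (h1 : ρ < 1) :
    ContinuousOn us {z | z ∈ G ∧ ‖z‖ ≤ ρ} := by
  refine continuousOn_tsum (u := bd ρ) (fun k => ?_) (summable_bd h0 h1) ?_
  · refine ContinuousOn.neg (ContinuousOn.log (fac_continuous k).norm.continuousOn fun z hz => ?_)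
    exact (lt_of_lt_of_le (eps_pos k) (hz.1 k)).ne'
  · intro k z hz
    rw [Real.norm_eq_abs]
    exact abs_term_le_bd hz.2 h1 (hz.1 k)

lemma us_continuousWithinAt {z : ℂ} (hz : z ∈ G) (h1 : ‖z‖ < 1) : ContinuousWithinAt us G z := by
  set ρ := (1 + ‖z‖) / 2 with hρ
  have hn := norm_nonneg z
  have h2 := us_continuousOn (ρ := ρ) (by linarith) (by linarith) z ⟨hz, by linarith⟩
  refine h2.mono_of_mem_nhdsWithin ?_
  have h3 : ball (0:ℂ) ρ ∈ 𝓝 z := isOpen_ball.mem_nhds (by rw [mem_ball_zero_iff]; linarith)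
  filter_upwards [self_mem_nhdsWithin, mem_nhdsWithin_of_mem_nhds h3] with w hw hw2
  rw [mem_ball_zero_iff] at hw2
  exact ⟨hw, hw2.le⟩

/-- the constant bounding the tails -/
noncomputable def CC : ℝ := ∑' j : ℕ, 6 * (5/6 : ℝ) ^ (20 ^ (j + 1))

lemma small56 (j : ℕ) : 3 * (5/6 : ℝ) ^ (20 ^ (j + 1)) ≤ 1/2 := by
  have h1 : (5/6 : ℝ) ^ (20 ^ (j + 1)) ≤ (5/6 : ℝ) ^ 20 := by
    apply pow_le_pow_of_le_one (by norm_num) (by norm_num)
    calc 20 = 20 ^ 1 := by norm_num
      _ ≤ 20 ^ (j + 1) := Nat.pow_le_pow_right (by norm_num) (by omega)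
  have h2 : (5/6 : ℝ) ^ 20 ≤ 1/6 := by norm_num
  linarith

/-- `us → -∞` at the unit circle -/
lemma us_le (M : ℝ) : ∃ δ < 1, ∀ z ∈ G, ‖z‖ < 1 → δ < ‖z‖ → us z < M := by
  have hlog65 : 0 < Real.log (6/5) := Real.log_pos (by norm_num)
  obtain ⟨K, hK⟩ := exists_nat_gt ((Real.log 2 + CC - M) / Real.log (6/5))
  rw [div_lt_iff₀ hlog65] at hK
  have h56 : (0:ℝ) < 5/6 := by norm_num
  refine ⟨(5/6 : ℝ) ^ ((1:ℝ) / 20 ^ K), ?_, ?_⟩
  · exact Real.rpow_lt_one (by norm_num) (by norm_num) (by positivity)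
  intro z hzG hz1 hzδ
  -- the power 20^K is at least 5/6
  have hpK : 5/6 < ‖z‖ ^ (20 ^ K) := by
    have h1 : ((5/6 : ℝ) ^ ((1:ℝ) / 20 ^ K)) ^ (20 ^ K) = 5/6 := by
      rw [← Real.rpow_natCast, ← Real.rpow_mul h56.le]
      have : (1:ℝ) / 20 ^ K * ((20 ^ K : ℕ) : ℝ) = 1 := by push_cast; field_simp
      rw [this, Real.rpow_one]
    rw [← h1]
    exact pow_lt_pow_left₀ hzδ (by positivity) (by positivity)
  have hex : ∃ k, ‖z‖ ^ (20 ^ k) < 5/6 := by
    obtain ⟨n, hn⟩ := eventually_small (norm_nonneg z) hz1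
    exact ⟨n, by have := hn n le_rfl; linarith⟩
  obtain ⟨k0, hk1, hk2⟩ : ∃ k0, ‖z‖ ^ (20 ^ k0) < 5/6 ∧ ∀ k < k0, 5/6 ≤ ‖z‖ ^ (20 ^ k) := by
    classical
    exact ⟨Nat.find hex, Nat.find_spec hex, fun k hk => not_lt.1 (Nat.find_min hex hk)⟩
  have hKk : K < k0 := by
    by_contra hle
    push Not at hle
    have : ‖z‖ ^ (20 ^ K) ≤ ‖z‖ ^ (20 ^ k0) :=
      pow_le_pow_of_le_one (norm_nonneg z) hz1.le (Nat.pow_le_pow_right (by norm_num) hle)
    linarith
  have hsum := summable_term hz1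
  have hsplit := hsum.sum_add_tsum_nat_add (k0 + 1)
  have e0 : us z = ∑' k, term k z := rfl
  rw [e0, ← hsplit, Finset.sum_range_succ]
  -- first part
  have p1 : ∑ k ∈ Finset.range k0, term k z ≤ -(k0 * Real.log (3/2)) := by
    have : ∀ k ∈ Finset.range k0, term k z ≤ -Real.log (3/2) := by
      intro k hk
      have h1 := hk2 k (Finset.mem_range.1 hk)
      have h2 := fac_ge' k z
      unfold term
      have := Real.log_le_log (by norm_num) (show 3/2 ≤ ‖fac k z‖ by linarith)
      linarith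
    have h3 := Finset.sum_le_sum this
    rw [Finset.sum_const, Finset.card_range, nsmul_eq_mul] at h3
    linarith
  have p2 : term k0 z ≤ k0 * Real.log (5/4) + Real.log 2 := by
    unfold term
    have h1 := Real.log_le_log (eps_pos k0) (hzG k0)
    have h2 : Real.log (eps k0) = -(Real.log 2) - k0 * Real.log (5/4) := by
      unfold eps
      rw [Real.log_mul (by norm_num) (by positivity), Real.log_pow, Real.log_div (by norm_num)
        (by norm_num), Real.log_one, Real.log_div (by norm_num) (by norm_num),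
        Real.log_div (by norm_num) (by norm_num)]
      ring
    linarith
  have hbdj : ∀ j : ℕ, |term (j + (k0 + 1)) z| ≤ 6 * (5/6 : ℝ) ^ (20 ^ (j + 1)) := by
    intro j
    have h1 : ‖z‖ ^ (20 ^ (j + (k0 + 1))) ≤ (5/6 : ℝ) ^ (20 ^ (j + 1)) := by
      have : 20 ^ (j + (k0 + 1)) = 20 ^ k0 * 20 ^ (j + 1) := by rw [← pow_add]; congr 1; omega
      rw [this, pow_mul]
      exact pow_le_pow_left₀ (by positivity) hk1.le _
    have h2 := small56 j
    have h3 := abs_term_le (k := j + (k0 + 1)) (z := z) le_rfl (by linarith)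
    linarith
  have hs56 : Summable fun j : ℕ => 6 * (5/6 : ℝ) ^ (20 ^ (j + 1)) :=
    (summable_nat_add_iff 1).2 (summable_rho (by norm_num) (by norm_num : (5/6:ℝ) < 1))
  have p3 : ∑' j, term (j + (k0 + 1)) z ≤ CC := by
    have hs2 : Summable fun j : ℕ => term (j + (k0 + 1)) z :=
      (summable_nat_add_iff (f := fun k => term k z) (k0 + 1)).2 hsum
    exact Summable.tsum_le_tsum (fun j => (le_abs_self _).trans (hbdj j)) hs2 hs56
  have hlog : Real.log (3/2) - Real.log (5/4) = Real.log (6/5) := by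
    rw [← Real.log_div (by norm_num) (by norm_num)]; norm_num
  have hkk : (K:ℝ) ≤ k0 := by exact_mod_cast hKk.le
  have h5 : (K:ℝ) * Real.log (6/5) ≤ k0 * Real.log (6/5) := mul_le_mul_of_nonneg_right hkk hlog65.le
  rw [← hlog] at h5 hK
  linarith

/-- The maximum principle on a disc. -/
lemma max_principle {c : ℂ} {r : ℝ} {f : ℂ → ℝ} (hf : ContinuousOn f (closedBall c r))
    (hm : ∀ (a : ℂ) (ρ : ℝ), 0 < ρ → closedBall a ρ ⊆ ball c r → f a ≤ circleAverage f a ρ)
    (hb : ∀ z ∈ sphere c r, f z ≤ 0) : ∀ z ∈ closedBall c r, f z ≤ 0 := by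
  intro z0 hz0
  by_contra hcon
  push Not at hcon
  obtain ⟨R, hR, hDR⟩ := (isBounded_closedBall (x := c) (r := r)).subset_ball_lt 0 0
  have hnR : ∀ z ∈ closedBall c r, ‖z‖ ^ 2 ≤ R ^ 2 := by
    intro z hz
    have h1 := hDR hz
    rw [mem_ball_zero_iff] at h1
    have := norm_nonneg z
    nlinarith
  set M := f z0 with hM
  set ε := M / (2 * R ^ 2) with hε
  have hε0 : 0 < ε := by positivity
  have hεR : ε * R ^ 2 = M / 2 := by rw [hε]; field_simp
  have hgc : ContinuousOn (fun z => f z + ε * ‖z‖ ^ 2) (closedBall c r) := by fun_prop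
  obtain ⟨a, ha, hamax⟩ := (isCompact_closedBall c r).exists_isMaxOn ⟨z0, hz0⟩ hgc
  have h1 : M ≤ f a + ε * ‖a‖ ^ 2 := by
    have := hamax hz0
    simp only [mem_ofPred_eq] at this
    have h2 : 0 ≤ ε * ‖z0‖ ^ 2 := by positivity
    linarith
  have hab : a ∈ ball c r := by
    by_contra h
    have has : a ∈ sphere c r := by
      rw [mem_closedBall] at ha
      rw [mem_ball, not_lt] at h
      exact le_antisymm ha h
    have h2 := hb a has
    have h3 : ε * ‖a‖ ^ 2 ≤ ε * R ^ 2 := mul_le_mul_of_nonneg_left (hnR a ha) hε0.le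
    linarith
  obtain ⟨s, hs, hsD⟩ := Metric.isOpen_iff.1 isOpen_ball a hab
  have hs2 : 0 < s / 2 := by positivity
  have hcb : closedBall a (s / 2) ⊆ ball c r := (closedBall_subset_ball (by linarith)).trans hsD
  have hcb2 : closedBall a (s / 2) ⊆ closedBall c r := hcb.trans ball_subset_closedBall
  have hsp : sphere a (s / 2) ⊆ closedBall c r := sphere_subset_closedBall.trans hcb2
  have hci : CircleIntegrable f a (s / 2) := (hf.mono hsp).circleIntegrable hs2.le
  have hcn : CircleIntegrable (fun z : ℂ => ε • ‖z‖ ^ 2) a (s / 2) :=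
    (by fun_prop : Continuous fun z : ℂ => ε • ‖z‖ ^ 2).continuousOn.circleIntegrable hs2.le
  have hle : circleAverage (fun z => f z + ε • ‖z‖ ^ 2) a (s / 2) ≤ f a + ε * ‖a‖ ^ 2 := by
    refine circleAverage_mono_on_of_le_circle (hci.add hcn) fun z hz => ?_
    rw [abs_of_pos hs2] at hz
    exact hamax (hsp hz)
  rw [circleAverage_fun_add hci hcn, circleAverage_fun_smul, circleAverage_normSq a hs2,
    smul_eq_mul] at hle
  have h4 := hm a (s / 2) hs2 hcb
  have h5 : 0 < ε * (s / 2) ^ 2 := by positivity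
  nlinarith

/-- the sub-mean value property in terms of harmonic majorants -/
lemma us_majorant {c : ℂ} {r : ℝ} (hr : 0 < r) (hD : ∀ z ∈ closedBall c r, z ∈ G ∧ ‖z‖ < 1)
    {h : ℂ → ℝ} (hh : ContinuousOn h (closedBall c r)) {g : ℂ → ℂ}
    (hg : DifferentiableOn ℂ g (ball c r)) (hgh : ∀ z ∈ ball c r, h z = (g z).re)
    (hle : ∀ z ∈ sphere c r, us z ≤ h z) : ∀ z ∈ closedBall c r, us z ≤ h z := by
  -- a radius
  obtain ⟨m, hm, hmmax⟩ := (isCompact_closedBall c r).exists_isMaxOn ⟨c, mem_closedBall_self hr.le⟩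
    (continuous_norm.continuousOn)
  set ρ := ‖m‖ with hρ
  have hρ0 : 0 ≤ ρ := norm_nonneg m
  have hρ1 : ρ < 1 := (hD m hm).2
  have hzρ : ∀ z ∈ closedBall c r, ‖z‖ ≤ ρ := fun z hz => hmmax hz
  intro z hz
  refine le_of_forall_pos_le_add fun δ hδ => ?_
  -- tails
  have htail := tendsto_sum_nat_add (fun k : ℕ => 6 * ρ ^ (20 ^ k))
  obtain ⟨n0, hn0⟩ := eventually_small hρ0 hρ1
  obtain ⟨n, hn, hnn0⟩ := ((htail.eventually (gt_mem_nhds (half_pos hδ))).and
    (eventually_ge_atTop n0)).exists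
  have happ : ∀ w ∈ closedBall c r, |us w - ∑ k ∈ Finset.range n, term k w| ≤ δ / 2 := by
    intro w hw
    have hs := summable_term (hD w hw).2
    have e1 : us w - ∑ k ∈ Finset.range n, term k w = ∑' k, term (k + n) w := by
      have := hs.sum_add_tsum_nat_add n
      have e0 : us w = ∑' k, term k w := rfl
      linarith
    rw [e1]
    have hb : ∀ k, ‖term (k + n) w‖ ≤ 6 * ρ ^ (20 ^ (k + n)) := fun k => by
      rw [Real.norm_eq_abs]
      exact abs_term_le (hzρ w hw) (hn0 (k + n) (by omega)).le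
    have := tsum_of_norm_bounded ((summable_nat_add_iff n).2 (summable_rho hρ0 hρ1)).hasSum hb
    rw [Real.norm_eq_abs] at this
    exact this.trans hn.le
  have hne : ∀ w ∈ closedBall c r, ∀ k, fac k w ≠ 0 := by
    intro w hw k h0
    have := (hD w hw).1 k
    rw [h0, norm_zero] at this
    exact absurd this (not_le.2 (eps_pos k))
  have hharm : ∀ w ∈ closedBall c r, ∀ k,
      InnerProductSpace.HarmonicAt (fun z : ℂ => Real.log ‖fac k z‖) w := by
    intro w hw k
    refine AnalyticAt.harmonicAt_log_norm (f := fac k) ?_ (hne w hw k)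
    have : Differentiable ℂ (fac k) := by unfold fac; fun_prop
    exact this.analyticAt w
  have htc : ∀ k, ContinuousOn (term k) (closedBall c r) := by
    intro k w hw
    refine ContinuousAt.continuousWithinAt ?_
    refine (ContinuousAt.log (fac_continuous k).norm.continuousAt ?_).neg
    exact norm_ne_zero_iff.2 (hne w hw k)
  have hsc : ContinuousOn (fun w => ∑ k ∈ Finset.range n, term k w) (closedBall c r) :=
    continuousOn_finsetSum _ fun k _ => htc k
  have key := max_principle (f := fun w => (∑ k ∈ Finset.range n, term k w) - h w - δ / 2)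
    ((hsc.sub hh).sub continuousOn_const) ?_ ?_ z hz
  · have h1 := (abs_le.1 (happ z hz)).2
    linarith
  · intro a s hs ha
    have ha' : closedBall a s ⊆ closedBall c r := ha.trans ball_subset_closedBall
    have hsp : sphere a s ⊆ closedBall c r := sphere_subset_closedBall.trans ha'
    have e1 : ∀ k, circleAverage (term k) a s = term k a := by
      intro k
      have h1 := InnerProductSpace.HarmonicOnNhd.circleAverage_eq
        (f := fun z : ℂ => Real.log ‖fac k z‖) (c := a) (R := s) (fun w hw => by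
          rw [abs_of_pos hs] at hw
          exact hharm w (ha' hw) k)
      have e2 : term k = fun z : ℂ => (-1 : ℝ) • Real.log ‖fac k z‖ := by
        funext z; simp [term]
      rw [e2, circleAverage_fun_smul, h1]
    have hti : ∀ k ∈ Finset.range n, CircleIntegrable (term k) a s := fun k _ =>
      ((htc k).mono hsp).circleIntegrable hs.le
    have hhi : CircleIntegrable h a s := (hh.mono hsp).circleIntegrable hs.le
    have e3 : circleAverage h a s = h a := by
      have h1 := InnerProductSpace.HarmonicOnNhd.circleAverage_eq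
        (f := fun z : ℂ => (g z).re) (c := a) (R := s) (fun w hw => by
          rw [abs_of_pos hs] at hw
          exact (hg.analyticAt (isOpen_ball.mem_nhds (ha hw))).harmonicAt_re)
      have e4 : circleAverage h a s = circleAverage (fun z : ℂ => (g z).re) a s := by
        refine circleAverage_congr_sphere fun w hw => ?_
        rw [abs_of_pos hs] at hw
        exact hgh w (ha (sphere_subset_closedBall hw))
      rw [e4, h1, hgh a (ha (mem_closedBall_self hs.le))]
    have hsi : CircleIntegrable (fun w => ∑ k ∈ Finset.range n, term k w) a s :=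
      (hsc.mono hsp).circleIntegrable hs.le
    have e5 : circleAverage (fun w => (∑ k ∈ Finset.range n, term k w) - h w - δ / 2) a s
        = (∑ k ∈ Finset.range n, term k a) - h a - δ / 2 := by
      have hsh : CircleIntegrable (fun w => (∑ k ∈ Finset.range n, term k w) - h w) a s :=
        hsi.sub hhi
      rw [circleAverage_fun_sub hsh (circleIntegrable_const _ _ _),
        circleAverage_fun_sub hsi hhi, circleAverage_const, e3, circleAverage_fun_sum hti]
      congr 2
      exact Finset.sum_congr rfl fun k _ => e1 k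
    rw [e5]
  · intro w hw
    have h1 := (abs_le.1 (happ w (sphere_subset_closedBall hw))).1
    have h2 := hle w hw
    linarith

end Pool.Agent.H783R2.Champ
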