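import Pool.Agent.H783R2.Champ.Basic

/-! # A champagne type domain: topology and length of the boundary -/

set_option autoImplicit false
open Set Filter Topology Metric MeasureTheory Real
open scoped NNReal ENNReal

namespace Pool.Agent.H783R2.Champ

/-- the disc without the bubbles -/
def Op : Set ℂ := {z | ‖z‖ < 1 ∧ ∀ k, eps k < ‖fac k z‖}

/-- radii of the free circles -/
noncomputable def sr (k : ℕ) : ℝ := Real.exp (-2 / 20 ^ k)

lemma sr_pos (k : ℕ) : 0 < sr k := Real.exp_pos _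

lemma sr_lt_one (k : ℕ) : sr k < 1 := by
  unfold sr
  rw [Real.exp_lt_one_iff]
  exact div_neg_of_neg_of_pos (by norm_num) (by positivity)

lemma sr_pow (k j : ℕ) : sr k ^ (20 ^ j) = Real.exp (-2 * (20 ^ j / 20 ^ k)) := by
  unfold sr
  rw [← Real.exp_nat_mul]
  congr 1
  push_cast
  ring

lemma exp_neg_two : Real.exp (-2) < 1/6 := by
  have h := Real.exp_one_gt_d9
  have h2 : Real.exp 2 = Real.exp 1 ^ 2 := by rw [← Real.exp_nat_mul]; norm_num
  have h3 : 6 < Real.exp 2 := by rw [h2]; nlinarith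
  rw [Real.exp_neg, inv_lt_comm₀ (by positivity) (by norm_num)]
  linarith

lemma sr_pow_ge {k j : ℕ} (h : k ≤ j) : sr k ^ (20 ^ j) < 1/6 := by
  rw [sr_pow]
  refine lt_of_le_of_lt (Real.exp_le_exp.2 ?_) exp_neg_two
  have h1 : (1:ℝ) ≤ 20 ^ j / 20 ^ k := by
    rw [one_le_div (by positivity)]
    exact pow_le_pow_right₀ (by norm_num) h
  linarith

lemma sr_pow_lt {k j : ℕ} (h : j < k) : 9/10 ≤ sr k ^ (20 ^ j) := by
  rw [sr_pow]
  have h1 : (20:ℝ) ^ j / 20 ^ k ≤ 1/20 := by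
    rw [div_le_iff₀ (by positivity)]
    have : (20:ℝ) ^ (j + 1) ≤ 20 ^ k := pow_le_pow_right₀ (by norm_num) h
    rw [pow_succ] at this
    linarith
  have h2 := Real.add_one_le_exp (-2 * ((20:ℝ) ^ j / 20 ^ k))
  linarith

lemma mem_Op {z : ℂ} (hz : ‖z‖ < 1)
    (h : ∀ k, ‖z‖ ^ (20 ^ k) < 1/6 ∨ 9/10 ≤ ‖z‖ ^ (20 ^ k) ∨ 1/2 < ‖fac k z‖) : z ∈ Op := by
  refine ⟨hz, fun k => lt_of_le_of_lt (eps_le k) ?_⟩
  rcases h k with h | h | h
  · have := fac_ge k z; linarith
  · have := fac_ge' k z; linarith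
  · exact h

lemma circle_mem_Op {k : ℕ} {z : ℂ} (hz : ‖z‖ = sr k) : z ∈ Op := by
  refine mem_Op (by rw [hz]; exact sr_lt_one k) fun j => ?_
  rw [hz]
  rcases le_or_gt k j with h | h
  · exact Or.inl (sr_pow_ge h)
  · exact Or.inr (Or.inl (sr_pow_lt h))

lemma sr_le_succ (k : ℕ) : sr k ≤ sr (k + 1) := by
  unfold sr
  refine Real.exp_le_exp.2 ?_
  rw [div_le_div_iff₀ (by positivity) (by positivity), pow_succ]
  have : (0:ℝ) < 20 ^ k := by positivity
  linarith

/-- the segments crossing the rings -/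
noncomputable def seg (k : ℕ) (t : ℝ) : ℂ := t * Complex.exp (((π / 20 ^ k : ℝ) : ℂ) * Complex.I)

lemma seg_norm (k : ℕ) {t : ℝ} (ht : 0 ≤ t) : ‖seg k t‖ = t := by
  unfold seg
  rw [norm_mul, Complex.norm_exp_ofReal_mul_I, mul_one, Complex.norm_real, Real.norm_eq_abs,
    abs_of_nonneg ht]

lemma seg_continuous (k : ℕ) : Continuous (seg k) := by unfold seg; fun_prop

lemma seg_pow (k : ℕ) (t : ℝ) : seg k t ^ (20 ^ k) = -((t ^ (20 ^ k) : ℝ) : ℂ) := by
  unfold seg
  rw [mul_pow, ← Complex.exp_nat_mul]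
  have : ((20 ^ k : ℕ) : ℂ) * (((π / 20 ^ k : ℝ) : ℂ) * Complex.I) = π * Complex.I := by
    push_cast
    field_simp
  rw [this, Complex.exp_pi_mul_I]
  push_cast; ring

lemma seg_mem_Op {k : ℕ} {t : ℝ} (h1 : sr k ≤ t) (h2 : t ≤ sr (k + 1)) : seg k t ∈ Op := by
  have h0 : 0 < t := (sr_pos k).trans_le h1
  have hn := seg_norm k h0.le
  refine mem_Op (by rw [hn]; exact h2.trans_lt (sr_lt_one _)) fun j => ?_
  rw [hn]
  rcases lt_trichotomy j k with h | h | h
  · exact Or.inr (Or.inl ((sr_pow_lt h).trans (pow_le_pow_left₀ (sr_pos k).le h1 _)))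
  · subst h
    refine Or.inr (Or.inr ?_)
    unfold fac
    rw [seg_pow]
    have e : (1:ℂ) - 3 * -((t ^ (20 ^ j) : ℝ) : ℂ) = ((1 + 3 * t ^ (20 ^ j) : ℝ) : ℂ) := by
      push_cast; ring
    rw [e, Complex.norm_real, Real.norm_eq_abs]
    have : 0 < t ^ (20 ^ j) := by positivity
    rw [abs_of_pos (by linarith)]
    linarith
  · exact Or.inl (lt_of_le_of_lt (pow_le_pow_left₀ h0.le h2 _) (sr_pow_ge h))

/-- the domain: the component of `Op` containing the first circle -/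
noncomputable def Om : Set ℂ := connectedComponentIn Op (sr 0 : ℂ)

lemma x0_mem : ((sr 0 : ℝ) : ℂ) ∈ Op := circle_mem_Op (k := 0) (by
  rw [Complex.norm_real, Real.norm_eq_abs, abs_of_pos (sr_pos 0)])

lemma sphere_preconn (r : ℝ) (hr : 0 < r) : IsPreconnected (sphere (0:ℂ) r) := by
  have := isPreconnected_range (continuous_circleMap (0:ℂ) r)
  rwa [range_circleMap, abs_of_pos hr] at this

lemma sub_Om {S : Set ℂ} (hS : IsPreconnected S) (hSO : S ⊆ Op) {p : ℂ} (hp : p ∈ S)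
    (hpO : p ∈ Om) : S ⊆ Om := by
  have h1 := hS.subset_connectedComponentIn hp hSO
  unfold Om at hpO ⊢
  rwa [← connectedComponentIn_eq hpO] at h1

lemma circle_sub_Om (k : ℕ) : sphere (0:ℂ) (sr k) ⊆ Om := by
  induction k with
  | zero =>
    refine sub_Om (sphere_preconn _ (sr_pos 0)) (fun z hz => ?_) (p := (sr 0 : ℂ)) ?_ ?_
    · rw [mem_sphere_zero_iff_norm] at hz; exact circle_mem_Op hz
    · rw [mem_sphere_zero_iff_norm, Complex.norm_real, Real.norm_eq_abs, abs_of_pos (sr_pos 0)]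
    · exact mem_connectedComponentIn x0_mem
  | succ k ih =>
    have hle := sr_le_succ k
    have h1 : seg k '' Icc (sr k) (sr (k + 1)) ⊆ Om := by
      refine sub_Om (isPreconnected_Icc.image _ (seg_continuous k).continuousOn) ?_
        (p := seg k (sr k)) ⟨_, ⟨le_rfl, hle⟩, rfl⟩ (ih ?_)
      · rintro _ ⟨t, ht, rfl⟩
        exact seg_mem_Op ht.1 ht.2
      · rw [mem_sphere_zero_iff_norm, seg_norm k (sr_pos k).le]
    refine sub_Om (sphere_preconn _ (sr_pos (k + 1))) (fun z hz => ?_)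
      (p := seg k (sr (k + 1))) ?_ (h1 ⟨_, ⟨hle, le_rfl⟩, rfl⟩)
    · rw [mem_sphere_zero_iff_norm] at hz; exact circle_mem_Op hz
    · rw [mem_sphere_zero_iff_norm, seg_norm k (sr_pos (k + 1)).le]

lemma sr_tendsto : Tendsto sr atTop (𝓝 1) := by
  have h1 : Tendsto (fun k : ℕ => (-2:ℝ) / 20 ^ k) atTop (𝓝 0) := by
    have := (tendsto_pow_atTop_nhds_zero_of_lt_one (r := (1/20:ℝ)) (by norm_num)
      (by norm_num)).const_mul (-2)
    rw [mul_zero] at this
    refine this.congr fun k => ?_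
    rw [div_pow, one_pow]; ring
  have h2 := (Real.continuous_exp.tendsto 0).comp h1
  rw [Real.exp_zero] at h2
  exact h2

lemma sphere_sub_closure : sphere (0:ℂ) 1 ⊆ closure Om := by
  intro z hz
  rw [mem_sphere_zero_iff_norm] at hz
  have h1 : Tendsto (fun k : ℕ => ((sr k : ℝ) : ℂ) * z) atTop (𝓝 (((1:ℝ) : ℂ) * z)) :=
    ((Complex.continuous_ofReal.tendsto 1).comp sr_tendsto).mul_const z
  rw [Complex.ofReal_one, one_mul] at h1
  refine mem_closure_of_tendsto h1 (Eventually.of_forall fun k => circle_sub_Om k ?_)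
  rw [mem_sphere_zero_iff_norm, norm_mul, hz, mul_one, Complex.norm_real, Real.norm_eq_abs,
    abs_of_pos (sr_pos k)]

lemma isOpen_Op : IsOpen Op := by
  rw [isOpen_iff_mem_nhds]
  rintro z ⟨hz1, hz2⟩
  set ρ := (1 + ‖z‖) / 2 with hρ
  have hn := norm_nonneg z
  obtain ⟨n, hn2⟩ := eventually_small (ρ := ρ) (by linarith) (by linarith)
  have h1 : ball (0:ℂ) ρ ∈ 𝓝 z := isOpen_ball.mem_nhds (by rw [mem_ball_zero_iff]; linarith)
  have h2 : ∀ᶠ w in 𝓝 z, ∀ k ∈ Finset.range n, eps k < ‖fac k w‖ := by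
    rw [Filter.eventually_all_finset]
    intro k _
    exact (fac_continuous k).norm.continuousAt.eventually (lt_mem_nhds (hz2 k))
  filter_upwards [h1, h2] with w hw1 hw2
  rw [mem_ball_zero_iff] at hw1
  refine ⟨by linarith, fun k => ?_⟩
  rcases lt_or_ge k n with h | h
  · exact hw2 k (Finset.mem_range.2 h)
  · have h3 := hn2 k h
    have h4 := fac_ge k w
    have h5 : ‖w‖ ^ (20 ^ k) ≤ ρ ^ (20 ^ k) := pow_le_pow_left₀ (norm_nonneg w) hw1.le _
    have h6 := eps_le k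
    linarith

lemma isOpen_Om : IsOpen Om := isOpen_Op.connectedComponentIn

lemma isConnected_Om : IsConnected Om := isConnected_connectedComponentIn_iff.2 x0_mem

lemma Om_sub : Om ⊆ Op := connectedComponentIn_subset _ _

lemma isBounded_Om : Bornology.IsBounded Om :=
  (isBounded_ball (x := (0:ℂ)) (r := 1)).subset fun z hz => by
    rw [mem_ball_zero_iff]; exact (Om_sub hz).1

lemma closure_sub : closure Om ⊆ {z | z ∈ G ∧ ‖z‖ ≤ 1} := by
  refine closure_minimal (fun z hz => ?_) (isClosed_G.inter (isClosed_le continuous_norm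
    continuous_const))
  exact ⟨fun k => ((Om_sub hz).2 k).le, (Om_sub hz).1.le⟩

lemma frontier_comp {U : Set ℂ} (hU : IsOpen U) (x : ℂ) :
    frontier (connectedComponentIn U x) ⊆ frontier U := by
  intro y hy
  have hC : IsOpen (connectedComponentIn U x) := hU.connectedComponentIn
  rw [hC.frontier_eq] at hy
  rw [hU.frontier_eq]
  refine ⟨closure_mono (connectedComponentIn_subset _ _) hy.1, fun hyU => hy.2 ?_⟩
  have h1 : IsOpen (connectedComponentIn U y) := hU.connectedComponentIn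
  obtain ⟨w, hw1, hw2⟩ := mem_closure_iff.1 hy.1 _ h1 (mem_connectedComponentIn hyU)
  have e1 := connectedComponentIn_eq hw1
  have e2 := connectedComponentIn_eq hw2
  rw [e2, ← e1]
  exact mem_connectedComponentIn hyU

/-- the boundaries of the bubbles -/
def Gam (k : ℕ) : Set ℂ := {z | ‖fac k z‖ = eps k}

lemma frontier_Om_sub : frontier Om ⊆ sphere (0:ℂ) 1 ∪ ⋃ k, Gam k := by
  intro z hz
  have h1 := closure_sub (frontier_subset_closure hz)
  have h2 := frontier_comp isOpen_Op _ hz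
  rw [isOpen_Op.frontier_eq] at h2
  rcases eq_or_lt_of_le h1.2 with h | h
  · left; rw [mem_sphere_zero_iff_norm]; exact h
  · right
    have h3 : ∃ k, ‖fac k z‖ ≤ eps k := by
      by_contra hcon
      push Not at hcon
      exact h2.2 ⟨h, hcon⟩
    obtain ⟨k, hk⟩ := h3
    exact mem_iUnion.2 ⟨k, le_antisymm hk (h1.1 k)⟩

/-! ### length -/

lemma circle_length : μH[1] (sphere (0:ℂ) 1) < ⊤ := by
  have h1 : sphere (0:ℂ) 1 = circleMap 0 1 '' Ioc 0 (2 * π) := by
    rw [image_circleMap_Ioc, abs_one]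
  rw [h1]
  refine lt_of_le_of_lt ((lipschitzWith_circleMap (0:ℂ) 1).hausdorffMeasure_image_le zero_le_one _)
    ?_
  rw [hausdorffMeasure_real, Real.volume_Ioc]
  exact ENNReal.mul_lt_top (by simp) ENNReal.ofReal_lt_top

lemma circle_length_pos : 0 < μH[1] (sphere (0:ℂ) 1) := by
  have hL : LipschitzWith 1 Complex.re := by
    refine LipschitzWith.mk_one fun z w => ?_
    rw [Real.dist_eq, ← Complex.sub_re, dist_eq_norm]
    exact Complex.abs_re_le_norm _
  have h1 := hL.hausdorffMeasure_image_le zero_le_one (sphere (0:ℂ) 1)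
  rw [hausdorffMeasure_real] at h1
  have h2 : Icc (-1:ℝ) 1 ⊆ Complex.re '' sphere (0:ℂ) 1 := by
    intro x hx
    refine ⟨⟨x, √(1 - x ^ 2)⟩, ?_, rfl⟩
    have h3 : 0 ≤ 1 - x ^ 2 := by nlinarith [hx.1, hx.2]
    rw [mem_sphere_zero_iff_norm, ← sq_eq_sq₀ (norm_nonneg _) zero_le_one,
      ← Complex.normSq_eq_norm_sq, Complex.normSq_apply]
    simp only
    rw [Real.mul_self_sqrt h3]; ring
  have h3 := measure_mono (μ := volume) h2
  rw [Real.volume_Icc] at h3
  have h4 : 0 < ENNReal.ofReal (1 - (-1)) := by rw [ENNReal.ofReal_pos]; norm_num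
  have h5 := lt_of_lt_of_le h4 (h3.trans h1)
  simpa using h5

/-- a branch of the boundary of the bubbles -/
noncomputable def br (k : ℕ) (t : ℝ) : ℂ :=
  Complex.exp (Complex.log (circleMap 1 (eps k) t / 3) / ((20 ^ k : ℕ) : ℂ))

lemma cm_re (k : ℕ) (t : ℝ) : 1/2 ≤ (circleMap 1 (eps k) t).re := by
  have h1 : (circleMap 1 (eps k) t).re = 1 + eps k * Real.cos t := by
    simp [circleMap, Complex.exp_re]
  rw [h1]
  have := eps_le k
  have := eps_pos k
  have := Real.neg_one_le_cos t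
  nlinarith

lemma cm_norm (k : ℕ) (t : ℝ) : 1/2 ≤ ‖circleMap 1 (eps k) t‖ ∧ ‖circleMap 1 (eps k) t‖ ≤ 3/2 := by
  constructor
  · exact (cm_re k t).trans (Complex.re_le_norm _)
  · have h1 : circleMap 1 (eps k) t ∈ sphere (1:ℂ) (eps k) := circleMap_mem_sphere _ (eps_pos k).le t
    rw [mem_sphere, dist_eq_norm] at h1
    have h2 : circleMap 1 (eps k) t = (circleMap 1 (eps k) t - 1) + 1 := by ring
    have h3 := norm_add_le (circleMap 1 (eps k) t - 1) 1
    rw [← h2, norm_one, h1] at h3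
    linarith [eps_le k]

lemma cm_slit (k : ℕ) (t : ℝ) : circleMap 1 (eps k) t / 3 ∈ Complex.slitPlane := by
  left
  have h1 := cm_re k t
  have h2 : (circleMap 1 (eps k) t / 3).re = (circleMap 1 (eps k) t).re / 3 := by
    rw [Complex.div_ofNat_re]
  rw [h2]; linarith

lemma br_norm (k : ℕ) (t : ℝ) : ‖br k t‖ ≤ 1 := by
  unfold br
  rw [Complex.norm_exp]
  rw [Real.exp_le_one_iff]
  have h1 : (Complex.log (circleMap 1 (eps k) t / 3) / ((20 ^ k : ℕ) : ℂ)).re
      = Real.log (‖circleMap 1 (eps k) t‖ / 3) / ((20 ^ k : ℕ) : ℝ) := by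
    rw [Complex.div_natCast_re, Complex.log_re, norm_div, Complex.norm_ofNat]
  rw [h1]
  refine div_nonpos_of_nonpos_of_nonneg (Real.log_nonpos (by positivity) ?_) (by positivity)
  have := (cm_norm k t).2
  linarith

lemma br_pow (k : ℕ) (t : ℝ) : br k t ^ (20 ^ k) = circleMap 1 (eps k) t / 3 := by
  unfold br
  rw [← Complex.exp_nat_mul]
  have h1 : ((20 ^ k : ℕ) : ℂ) ≠ 0 := by exact_mod_cast (pow_pos (by norm_num : 0 < 20) k).ne'
  rw [mul_div_cancel₀ _ h1, Complex.exp_log (Complex.slitPlane_ne_zero (cm_slit k t))]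

lemma br_hasDeriv (k : ℕ) (t : ℝ) : HasDerivAt (br k)
    (br k t * ((circleMap 0 (eps k) t * Complex.I / 3) / (circleMap 1 (eps k) t / 3) /
      ((20 ^ k : ℕ) : ℂ))) t := by
  have h1 : HasDerivAt (fun t => circleMap 1 (eps k) t / 3)
      (circleMap 0 (eps k) t * Complex.I / 3) t := (hasDerivAt_circleMap 1 (eps k) t).div_const 3
  have h2 := h1.clog_real (cm_slit k t)
  have h3 := h2.div_const ((20 ^ k : ℕ) : ℂ)
  exact h3.cexp

lemma br_lip (k : ℕ) (ω : ℂ) (hω : ‖ω‖ = 1) :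
    LipschitzWith (Real.toNNReal (2 * eps k / 20 ^ k)) (fun t => ω * br k t) := by
  have hd : ∀ t, HasDerivAt (fun t => ω * br k t) (ω * (br k t *
      ((circleMap 0 (eps k) t * Complex.I / 3) / (circleMap 1 (eps k) t / 3) /
      ((20 ^ k : ℕ) : ℂ)))) t := fun t => (br_hasDeriv k t).const_mul ω
  refine lipschitzWith_of_nnnorm_deriv_le (fun t => (hd t).differentiableAt) fun t => ?_
  rw [(hd t).deriv, ← NNReal.coe_le_coe, coe_nnnorm,
    Real.coe_toNNReal _ (by have := eps_pos k; positivity)]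
  rw [norm_mul, hω, one_mul, norm_mul, norm_div, norm_div, norm_div, norm_div, norm_mul,
    Complex.norm_I, mul_one, norm_circleMap_zero, abs_of_pos (eps_pos k), Complex.norm_natCast]
  have h1 := br_norm k t
  have h2 := (cm_norm k t).1
  have h3 := eps_pos k
  have h4 : ‖(3:ℂ)‖ = 3 := Complex.norm_ofNat 3
  rw [h4]
  have h5 : eps k / 3 / (‖circleMap 1 (eps k) t‖ / 3) ≤ 2 * eps k := by
    rw [div_div_div_cancel_right₀ (by norm_num), div_le_iff₀ (by linarith)]
    nlinarith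
  have h6 : (0:ℝ) < ((20 ^ k : ℕ) : ℝ) := by positivity
  have h7 : eps k / 3 / (‖circleMap 1 (eps k) t‖ / 3) / ((20 ^ k : ℕ) : ℝ)
      ≤ 2 * eps k / ((20 ^ k : ℕ) : ℝ) := by gcongr
  have h8 : 0 ≤ eps k / 3 / (‖circleMap 1 (eps k) t‖ / 3) / ((20 ^ k : ℕ) : ℝ) := by positivity
  calc ‖br k t‖ * (eps k / 3 / (‖circleMap 1 (eps k) t‖ / 3) / ((20 ^ k : ℕ) : ℝ))
      ≤ 1 * (eps k / 3 / (‖circleMap 1 (eps k) t‖ / 3) / ((20 ^ k : ℕ) : ℝ)) :=
        mul_le_mul_of_nonneg_right h1 h8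
    _ ≤ 2 * eps k / 20 ^ k := by
        rw [one_mul]; refine h7.trans (le_of_eq ?_); push_cast; rfl

lemma Gam_sub (k : ℕ) : Gam k ⊆ ⋃ ω ∈ Polynomial.nthRootsFinset (20 ^ k) (1:ℂ),
    (fun t => ω * br k t) '' Ioc 0 (2 * π) := by
  intro z hz
  have hpos : 0 < 20 ^ k := by positivity
  have h1 : (3 * z ^ (20 ^ k) : ℂ) ∈ sphere (1:ℂ) |eps k| := by
    rw [mem_sphere, dist_eq_norm, norm_sub_rev, abs_of_pos (eps_pos k)]
    exact hz
  rw [← image_circleMap_Ioc] at h1
  obtain ⟨t, ht, h2⟩ := h1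
  have hb : br k t ≠ 0 := Complex.exp_ne_zero _
  simp only [mem_iUnion, exists_prop]
  refine ⟨z / br k t, ?_, t, ht, ?_⟩
  · rw [Polynomial.mem_nthRootsFinset hpos, div_pow, br_pow, h2]
    have h3 : (3 * z ^ (20 ^ k) : ℂ) / 3 = z ^ (20 ^ k) := by ring
    rw [h3, div_self]
    intro h4
    have h5 := (cm_norm k t).1
    rw [h2, h4] at h5
    norm_num at h5
  · simp only
    field_simp

lemma Gam_length (k : ℕ) : μH[1] (Gam k) ≤ ENNReal.ofReal (4 * π * eps k) := by
  refine (measure_mono (Gam_sub k)).trans ?_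
  refine (measure_biUnion_finset_le _ _).trans ?_
  have hpos : 0 < 20 ^ k := by positivity
  have he := eps_pos k
  have h1 : ∀ ω ∈ Polynomial.nthRootsFinset (20 ^ k) (1:ℂ),
      μH[1] ((fun t => ω * br k t) '' Ioc 0 (2 * π)) ≤
        ENNReal.ofReal (2 * eps k / 20 ^ k * (2 * π)) := by
    intro ω hω
    rw [Polynomial.mem_nthRootsFinset hpos] at hω
    have hω1 : ‖ω‖ = 1 := by
      have h2 : ‖ω‖ ^ (20 ^ k) = 1 := by rw [← norm_pow, hω, norm_one]
      exact (pow_eq_one_iff_of_nonneg (norm_nonneg ω) hpos.ne').1 h2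
    refine ((br_lip k ω hω1).hausdorffMeasure_image_le zero_le_one _).trans ?_
    rw [hausdorffMeasure_real, Real.volume_Ioc, ENNReal.rpow_one, sub_zero]
    refine le_of_eq (Eq.symm ?_)
    exact ENNReal.ofReal_mul (by positivity)
  refine (Finset.sum_le_sum h1).trans ?_
  rw [Finset.sum_const, nsmul_eq_mul]
  have h2 : ((Polynomial.nthRootsFinset (20 ^ k) (1:ℂ)).card : ℝ≥0∞) ≤ ((20 ^ k : ℕ) : ℝ≥0∞) := by
    have : (Polynomial.nthRootsFinset (20 ^ k) (1:ℂ)).card ≤ 20 ^ k := by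
      unfold Polynomial.nthRootsFinset
      exact (Multiset.toFinset_card_le _).trans (Polynomial.card_nthRoots _ _)
    exact_mod_cast this
  refine (mul_le_mul_left h2 _).trans ?_
  rw [← ENNReal.ofReal_natCast, ← ENNReal.ofReal_mul (by positivity)]
  refine ENNReal.ofReal_le_ofReal (le_of_eq ?_)
  push_cast
  field_simp
  ring

lemma frontier_length : μH[1] (frontier Om) < ⊤ := by
  refine lt_of_le_of_lt (measure_mono frontier_Om_sub) ?_
  refine lt_of_le_of_lt (measure_union_le _ _) ?_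
  refine ENNReal.add_lt_top.2 ⟨circle_length, ?_⟩
  refine lt_of_le_of_lt (measure_iUnion_le _) ?_
  refine lt_of_le_of_lt (ENNReal.tsum_le_tsum Gam_length) ?_
  apply Summable.tsum_ofReal_lt_top
  refine Summable.mul_left _ ?_
  unfold eps
  exact Summable.mul_left _ (summable_geometric_of_lt_one (by norm_num) (by norm_num))

/-! ### the outer boundary -/

lemma range_circle : range (fun z : Circle => (z : ℂ)) = sphere (0:ℂ) 1 := by
  ext z
  constructor
  · rintro ⟨w, rfl⟩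
    rw [mem_sphere_zero_iff_norm]; exact Circle.norm_coe w
  · intro hz
    exact ⟨⟨z, hz⟩, rfl⟩

lemma ext_preconn : IsPreconnected {z : ℂ | 1 < ‖z‖} := by
  have hc : Continuous (fun p : ℝ × ℝ => ((1 + Real.exp p.1 : ℝ) : ℂ) *
      Complex.exp ((p.2 : ℂ) * Complex.I)) := by fun_prop
  have h := isPreconnected_range hc
  convert h using 1
  ext z
  constructor
  · intro hz
    change 1 < ‖z‖ at hz
    refine ⟨(Real.log (‖z‖ - 1), Complex.arg z), ?_⟩
    simp only
    rw [Real.exp_log (by linarith)]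
    have : (1 + (‖z‖ - 1) : ℝ) = ‖z‖ := by ring
    rw [this]
    exact Complex.norm_mul_exp_arg_mul_I z
  · rintro ⟨⟨s, t⟩, rfl⟩
    change 1 < ‖((1 + Real.exp s : ℝ) : ℂ) * Complex.exp ((t : ℂ) * Complex.I)‖
    rw [norm_mul, Complex.norm_exp_ofReal_mul_I, mul_one, Complex.norm_real, Real.norm_eq_abs]
    have := Real.exp_pos s
    rw [abs_of_pos (by linarith)]
    linarith

lemma outer {z : ℂ} (hunb : ¬ Bornology.IsBounded (connectedComponentIn (closure Om)ᶜ z)) :
    frontier (connectedComponentIn (closure Om)ᶜ z) = sphere (0:ℂ) 1 := by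
  set C := connectedComponentIn (closure Om)ᶜ z with hC
  have hCpre : IsPreconnected C := isPreconnected_connectedComponentIn
  have hCsub : C ⊆ (closure Om)ᶜ := connectedComponentIn_subset _ _
  obtain ⟨w, hwC, hw1⟩ : ∃ w ∈ C, 1 < ‖w‖ := by
    by_contra hcon
    push Not at hcon
    exact hunb ((isBounded_closedBall (x := (0:ℂ)) (r := 1)).subset fun w hw => by
      rw [mem_closedBall_zero_iff]; exact hcon w hw)
  have hext : {z : ℂ | 1 < ‖z‖} ⊆ (closure Om)ᶜ := by
    intro v hv hvc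
    have := (closure_sub hvc).2
    change 1 < ‖v‖ at hv
    linarith
  have h1 : {z : ℂ | 1 < ‖z‖} ⊆ C := by
    have h2 := ext_preconn.subset_connectedComponentIn (x := w) hw1 hext
    rwa [hC, connectedComponentIn_eq hwC]
  have h2 : C ⊆ {z : ℂ | 1 < ‖z‖} := by
    intro v hv
    by_contra hv1
    have hv1' : ‖v‖ ≤ 1 := not_lt.1 hv1
    have h3 : IsPreconnected (norm '' C) := hCpre.image _ continuous_norm.continuousOn
    have h4 := h3.Icc_subset ⟨v, hv, rfl⟩ ⟨w, hwC, rfl⟩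
    obtain ⟨p, hp, hp1⟩ := h4 (show (1:ℝ) ∈ Icc ‖v‖ ‖w‖ from ⟨hv1', hw1.le⟩)
    exact hCsub hp (sphere_sub_closure (by rw [mem_sphere_zero_iff_norm]; exact hp1))
  have h3 : C = (closedBall (0:ℂ) 1)ᶜ := by
    apply Subset.antisymm
    · intro v hv
      rw [mem_compl_iff, mem_closedBall_zero_iff, not_le]
      exact h2 hv
    · intro v hv
      rw [mem_compl_iff, mem_closedBall_zero_iff, not_le] at hv
      exact h1 hv
  rw [h3, frontier_compl, frontier_closedBall _ one_ne_zero]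

/-- the subharmonic function -/
noncomputable def uu (z : ℂ) : EReal := if ‖z‖ < 1 then ((us z : ℝ) : EReal) else ⊥

lemma uu_eventually {ζ : ℂ} (hζ : ‖ζ‖ = 1) {y : EReal} (hy : ⊥ < y) :
    ∀ᶠ z in 𝓝[closure Om] ζ, uu z < y := by
  obtain ⟨M, hM1, hM2⟩ := EReal.lt_iff_exists_real_btwn.1 hy
  obtain ⟨δ, hδ, h⟩ := us_le M
  have h1 : ∀ᶠ z in 𝓝[closure Om] ζ, δ < ‖z‖ :=
    (continuous_norm.continuousAt.eventually (lt_mem_nhds (show δ < ‖ζ‖ by rw [hζ]; exact hδ))).filter_mono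
      nhdsWithin_le_nhds
  filter_upwards [h1, self_mem_nhdsWithin] with z hz1 hz2
  unfold uu
  split_ifs with h3
  · refine lt_trans ?_ hM2
    exact EReal.coe_lt_coe_iff.2 (h z (closure_sub hz2).1 h3 hz1)
  · exact hy

end Pool.Agent.H783R2.Champ
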